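import Pool.Agent.H606.AV.All

/-!
# Averages of the xi function and a zero-free half-plane

Lagarias' averages `A_h(s) = ξ(s + h) + ξ(s - h)` have all their zeros on the critical line for `h ≥ 1/2`. For `0 < h < 1/2` the zeros of `A_h` off the critical line
see exactly the zeros of zeta to the right of `Re s = 1/2 + h`.
-/

set_option autoImplicit false

open Complex

namespace Pool.Agent.Results.MP_5a4862_nt.AveragesOfXi

/-- The entire Riemann xi function: `xi s = s (s - 1) Λ(s) / 2` for `s ≠ 0, 1`, where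
`Λ(s) = π^(-s/2) Γ(s/2) ζ(s)`, since `Λ(s) = Λ₀(s) - 1/s - 1/(1 - s)`. -/
noncomputable def xi (s : ℂ) : ℂ := (1 + s * (s - 1) * completedRiemannZeta₀ s) / 2

/-- The average `A_h(s) = ξ(s + h) + ξ(s - h)`. -/
noncomputable def A (h : ℝ) (s : ℂ) : ℂ := xi (s + h) + xi (s - h)

/-- The zeros of `A_h` in the critical strip, with positive imaginary part, off the critical line. -/
def Off (h : ℝ) : Set ℂ := {s : ℂ | A h s = 0 ∧ 0 < s.re ∧ s.re < 1 ∧ s.re ≠ 1 / 2 ∧ 0 < s.im}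

/-- (1) Exact threshold: for `0 ≤ h₀ < 1/2`, `A_h` has only finitely many zeros off the critical line for every `h > h₀` iff for every `ε > 0` only finitely many zeros of
zeta have real part at least `1/2 + h₀ + ε`. (2) Zeta has a zero-free half-plane (question Q1) iff `A_h` has only finitely many zeros off the critical line for some
`h < 1/2`. (3) Local law. For `0 < h < 1/2`, `0 < ε ≤ h` there are `B, T₀`: a zero of zeta with real part `≥ 1/2 + h + ε` at a height `t ≥ T₀` forces a zero of `A_h` off the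
line at a height within `B log t` of `t`; if there is no such zero of `A_h`, then `|ζ(1/2 + h + it)| ≤ t^ε`; and if zeta has no zero with real part `> 1/2 + h - ε` at a height
within `2 log t` of `t`, then all zeros of `A_h` at heights within `1` of `t` are simple and on the line. (4) Unconditionally, for `0 < h < 1/2` and `ε > 0` the number of zeros of
`A_h` off the line up to `T` is at most `C T^(1 - (4/3) h + ε)`, while at least `(1 - ε) (T/2π) log T` zeros up to `T` are simple and on the line. -/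
theorem result :
    (∀ h₀ : ℝ, 0 ≤ h₀ → h₀ < 1 / 2 →
      ((∀ h : ℝ, h₀ < h → h < 1 / 2 → (Off h).Finite) ↔
        ∀ ε : ℝ, 0 < ε → {ρ : ℂ | riemannZeta ρ = 0 ∧ 1 / 2 + h₀ + ε ≤ ρ.re ∧ 0 < ρ.im}.Finite)) ∧
    ((∃ σ₀ : ℝ, 1 / 2 < σ₀ ∧ σ₀ < 1 ∧ ∀ s : ℂ, σ₀ ≤ s.re → riemannZeta s ≠ 0) ↔
      ∃ h : ℝ, 0 < h ∧ h < 1 / 2 ∧ (Off h).Finite) ∧
    (∀ h ε : ℝ, 0 < h → h < 1 / 2 → 0 < ε → ε ≤ h → ∃ B T₀ : ℝ, 0 < B ∧
      (∀ ρ : ℂ, riemannZeta ρ = 0 → 1 / 2 + h + ε ≤ ρ.re → T₀ ≤ ρ.im →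
        ∃ s ∈ Off h, |s.im - ρ.im| ≤ B * Real.log ρ.im) ∧
      (∀ t : ℝ, T₀ ≤ t → (∀ s ∈ Off h, B * Real.log t < |s.im - t|) →
        ‖riemannZeta (1 / 2 + h + I * t)‖ ≤ t ^ ε) ∧
      (∀ t : ℝ, T₀ ≤ t →
        (∀ ρ : ℂ, riemannZeta ρ = 0 → |ρ.im - t| ≤ 2 * Real.log t → ρ.re ≤ 1 / 2 + h - ε) →
        ∀ s : ℂ, A h s = 0 → 0 < s.re → s.re < 1 → |s.im - t| ≤ 1 →
          s.re = 1 / 2 ∧ deriv (A h) s ≠ 0)) ∧
    (∀ h ε : ℝ, 0 < h → h < 1 / 2 → 0 < ε →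
      (∃ C : ℝ, ∀ T : ℝ, 2 ≤ T → {s : ℂ | s ∈ Off h ∧ s.im ≤ T}.Finite ∧
        ({s : ℂ | s ∈ Off h ∧ s.im ≤ T}.ncard : ℝ) ≤ C * T ^ (1 - 4 / 3 * h + ε)) ∧
      (∃ T₀ : ℝ, ∀ T : ℝ, T₀ ≤ T → ∃ S : Finset ℝ,
        (∀ x ∈ S, 0 < x ∧ x ≤ T ∧ A h (1 / 2 + I * x) = 0 ∧ deriv (A h) (1 / 2 + I * x) ≠ 0) ∧
        (1 - ε) * (T / (2 * Real.pi) * Real.log T) ≤ (S.card : ℝ))) := by
  refine ⟨fun h₀ a b => ?_, ?_, fun h ε a b c d => ?_, fun h ε a b c => ⟨?_, ?_⟩⟩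
  · exact Pool.Agent.H606.AV.t3 Pool.Agent.H606.AV.q_farx Pool.Agent.H606.AV.q_lawa
      Pool.Agent.H606.AV.oa_fin a b
  · exact Pool.Agent.H606.AV.t4 Pool.Agent.H606.AV.q_farx Pool.Agent.H606.AV.q_lawa
      Pool.Agent.H606.AV.oa_fin
  · obtain ⟨B₁, T₁, hB₁, _, H₁⟩ := Pool.Agent.H606.AV.t1a Pool.Agent.H606.AV.q_farx a b c
    obtain ⟨B₂, T₂, hB₂, H₂⟩ := Pool.Agent.H606.AV.t1b Pool.Agent.H606.AV.q_linx a b c
    obtain ⟨T₃, H₃⟩ := Pool.Agent.H606.AV.t1c Pool.Agent.H606.AV.q_lawa c d b.le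
    refine ⟨max B₁ B₂, max (max T₁ T₂) (max T₃ 1), lt_max_of_lt_left hB₁, fun ρ h1 h2 h3 => ?_,
      fun t ht hs => ?_, fun t ht hz => H₃ t ?_ hz⟩
    · have e1 : T₁ ≤ ρ.im := ((le_max_left _ _).trans (le_max_left _ _)).trans h3
      have e2 : 1 ≤ ρ.im := ((le_max_right _ _).trans (le_max_right _ _)).trans h3
      obtain ⟨_, s, hs, hs'⟩ := H₁ ρ h1 h2 e1
      exact ⟨s, hs, hs'.trans (mul_le_mul_of_nonneg_right (le_max_left _ _) (Real.log_nonneg e2))⟩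
    · have e1 : T₂ ≤ t := ((le_max_right _ _).trans (le_max_left _ _)).trans ht
      have e2 : 1 ≤ t := ((le_max_right _ _).trans (le_max_right _ _)).trans ht
      exact H₂ t e1 (fun s h => (mul_le_mul_of_nonneg_right (le_max_right _ _)
        (Real.log_nonneg e2)).trans_lt (hs s h))
    · exact ((le_max_left _ _).trans (le_max_right _ _)).trans ht
  · obtain ⟨C, H⟩ := Pool.Agent.H606.AV.off_bound Pool.Agent.H606.AV.q_cnt2 a b c
    refine ⟨C, fun T hT => ⟨?_, H T hT⟩⟩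
    have e : {s : ℂ | s ∈ Off h ∧ s.im ≤ T} = Pool.Agent.H606.AV.OffUp h T := rfl
    rw [e, Pool.Agent.H606.AV.OffUp_eq]
    exact (Pool.Agent.H606.AV.oa_fin h T a b).image _
  · exact Pool.Agent.H606.AV.online a b.le c

end Pool.Agent.Results.MP_5a4862_nt.AveragesOfXi
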