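import Pool.Agent.H487.EF.Top

set_option autoImplicit false

/-!
The zeros of the derivatives of the Riemann xi function are evenly spaced on the critical line: all but an exponentially small
proportion of them, uniformly in the order `m ≤ T^(1/4)` of the derivative and in the height `T`; the exceptions for `m ≥ ε log T`
are controlled by the zeros of zeta with real part `> 1/2 + 2m/log T - ε`, and so disappear for `m ≥ (1/4 + ε) log T`.
-/

open Complex

namespace Pool.Agent.Results.MP_5a4862_nt.EvenSpacing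

/-- The entire Riemann xi function: `xi s = s (s - 1) Λ(s) / 2` for `s ≠ 0, 1`, where
`Λ(s) = π^(-s/2) Γ(s/2) ζ(s)`, since `Λ(s) = Λ₀(s) - 1/s - 1/(1 - s)`. -/
noncomputable def xi (s : ℂ) : ℂ := (1 + s * (s - 1) * completedRiemannZeta₀ s) / 2

/-- `s` is an evenly spaced zero of the `m`-th derivative of `xi`: it is on the critical line and simple, and the next
zeros below and above it (among all zeros of this derivative, of any real part) are on the line, at distances from `s`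
which are `(1 ± ε)` times `2π / log (Im s)`. -/
def Even (ε : ℝ) (m : ℕ) (s : ℂ) : Prop :=
  s.re = 1 / 2 ∧ iteratedDeriv (m + 1) xi s ≠ 0 ∧ ∃ a b : ℝ, a < s.im ∧ s.im < b ∧
    iteratedDeriv m xi (1 / 2 + a * I) = 0 ∧ iteratedDeriv m xi (1 / 2 + b * I) = 0 ∧
    (∀ z : ℂ, iteratedDeriv m xi z = 0 → a < z.im → z.im < b → z = s) ∧
    |(s.im - a) * Real.log s.im / (2 * Real.pi) - 1| ≤ ε ∧ |(b - s.im) * Real.log s.im / (2 * Real.pi) - 1| ≤ ε

/-- The zeros `s` of the `m`-th derivative of `xi` with `T < Im s ≤ 2T` and `P s`. -/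
def Z (m : ℕ) (T : ℝ) (P : ℂ → Prop) : Set ℂ := {s | iteratedDeriv m xi s = 0 ∧ (T < s.im ∧ s.im ≤ 2 * T) ∧ P s}

/-- The number of elements of `Z m T P`, counted with multiplicity. -/
noncomputable def N (m : ℕ) (T : ℝ) (P : ℂ → Prop) : ℝ :=
  ∑ᶠ s ∈ Z m T P, (analyticOrderNatAt (iteratedDeriv m xi) s : ℝ)

/-- The number of the zeros of zeta with real part `> σ` and `0 < Im ρ ≤ T`, counted with multiplicity. -/
noncomputable def Nζ (σ T : ℝ) : ℝ :=
  ∑ᶠ ρ ∈ {ρ : ℂ | riemannZeta ρ = 0 ∧ σ < ρ.re ∧ 0 < ρ.im ∧ ρ.im ≤ T}, (analyticOrderNatAt riemannZeta ρ : ℝ)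

/-- For every `ε > 0`:
(1) there are `c > 0`, `C`, `T₀` such that for all `T ≥ T₀` and all `0 ≤ m ≤ T^(1/4)` the zeros of `xi^(m)` with `T < Im s ≤ 2T` which
are not evenly spaced form a proportion at most `C e^(-cm)` of all (finitely many) zeros of `xi^(m)` with `T < Im s ≤ 2T`;
(2) for `T ≥ T₀` and `ε log T ≤ m ≤ T^(1/4)` their number is at most `T^ε Nζ(1/2 + 2m/log T - ε, 3T)`; in particular there are none
if `m ≥ (1/4 + ε) log T`;
(3) zeta has a zero-free half-plane `Re s > σ₀`, `σ₀ < 1`, if and only if for some `c < 1/4` and all large `T` every zero of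
`xi^(m)` with `T < Im s ≤ 2T` is evenly spaced for all `c log T ≤ m ≤ T^(1/4)`. -/
theorem result (ε : ℝ) (hε : 0 < ε) :
    (∃ c C T₀ : ℝ, 0 < c ∧ ∀ T : ℝ, T₀ ≤ T → ∀ m : ℕ, (m : ℝ) ^ 4 ≤ T → (Z m T fun _ => True).Finite ∧
      N m T (fun s => ¬ Even ε m s) ≤ C * Real.exp (-c * m) * N m T fun _ => True) ∧
    (∃ T₀ : ℝ, ∀ T : ℝ, T₀ ≤ T → ∀ m : ℕ, ε * Real.log T ≤ m → (m : ℝ) ^ 4 ≤ T →
      N m T (fun s => ¬ Even ε m s) ≤ T ^ ε * Nζ (1 / 2 + 2 * m / Real.log T - ε) (3 * T) ∧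
      ((1 / 4 + ε) * Real.log T ≤ m → ∀ s ∈ Z m T fun _ => True, Even ε m s)) ∧
    ((∃ σ₀ : ℝ, σ₀ < 1 ∧ ∀ s : ℂ, σ₀ < s.re → riemannZeta s ≠ 0) ↔
      ∃ c T₀ : ℝ, c < 1 / 4 ∧ ∀ T : ℝ, T₀ ≤ T → ∀ m : ℕ, c * Real.log T ≤ m → (m : ℝ) ^ 4 ≤ T →
        ∀ s ∈ Z m T fun _ => True, Even ε m s) := by
  have hEv : ∀ m s, Even ε m s ↔ Pool.Agent.H487.ED.Ev ε m (-I * (s - 1 / 2)) := fun m s =>
    Pool.Agent.H487.EF.evx_iff ε m s
  have hN1 : ∀ (m : ℕ) (T : ℝ), 0 ≤ T → N m T (fun s => ¬ Even ε m s) =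
      Pool.Agent.H477.E.cnt m (fun w => ¬ Pool.Agent.H487.ED.Ev ε m w) (2 * T) -
        Pool.Agent.H477.E.cnt m (fun w => ¬ Pool.Agent.H487.ED.Ev ε m w) T := fun m T hT =>
    Pool.Agent.H487.EF.num_eq m hT _ _ fun s => not_congr (hEv m s)
  have hN2 : ∀ (m : ℕ) (T : ℝ), 0 ≤ T → N m T (fun _ => True) =
      Pool.Agent.H477.E.cnt m (fun _ => True) (2 * T) - Pool.Agent.H477.E.cnt m (fun _ => True) T := fun m T hT =>
    Pool.Agent.H487.EF.num_eq m hT _ _ fun s => Iff.rfl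
  refine ⟨?_, ?_, ?_⟩
  · obtain ⟨c, C, T0, hc, h⟩ := Pool.Agent.H487.EF.t_fin1 hε
    refine ⟨c, C, max T0 0, hc, fun T hT m hm => ⟨Pool.Agent.H487.EF.num_fin m ((le_max_right _ _).trans hT) _, ?_⟩⟩
    have hT0 : 0 ≤ T := (le_max_right _ _).trans hT
    rw [hN1 m T hT0, hN2 m T hT0]
    exact h T ((le_max_left _ _).trans hT) m hm
  · obtain ⟨T1, h1⟩ := Pool.Agent.H487.EF.t_fin2 hε hε
    obtain ⟨T2, h2⟩ := Pool.Agent.H487.EF.t_fin2 hε (show 0 < min ε (1 / 4) by positivity)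
    refine ⟨max (max T1 T2) 2, fun T hT m hm hm4 => ?_⟩
    have hT1 : T1 ≤ T := ((le_max_left _ _).trans (le_max_left _ _)).trans hT
    have hT2 : T2 ≤ T := ((le_max_right _ _).trans (le_max_left _ _)).trans hT
    have hT3 : 2 ≤ T := (le_max_right _ _).trans hT
    have hlog : 0 < Real.log T := Real.log_pos (by linarith)
    refine ⟨?_, fun hm2 s hs => ?_⟩
    · rw [hN1 m T (by linarith)]
      exact h1 T hT1 m hm hm4
    · have h3 := h2 T hT2 m (le_trans (mul_le_mul_of_nonneg_right (min_le_left _ _) hlog.le) hm) hm4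
      have h4 : Pool.Agent.H487.EF.Nz (1 / 2 + 2 * m / Real.log T - min ε (1 / 4)) (3 * T) = 0 := by
        unfold Pool.Agent.H487.EF.Nz
        apply finsum_mem_eq_zero_of_forall_eq_zero
        rintro ρ ⟨r1, r2, _, _⟩
        exfalso
        refine riemannZeta_ne_zero_of_one_le_re ?_ r1
        have h5 : 2 * (1 / 4 + ε) ≤ 2 * m / Real.log T := by
          rw [le_div_iff₀ hlog]
          linarith
        have := min_le_left ε (1 / 4)
        linarith
      rw [h4, mul_zero] at h3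
      rw [hEv]
      exact Pool.Agent.H487.EF.all_of_cnt (Q := fun w => Pool.Agent.H487.ED.Ev ε m w) (by linarith) h3
        ((Pool.Agent.H477.E.xi_iter_zero m s).1 hs.1) (by rw [Pool.Agent.H487.EF.neg_I_mul_re]; exact hs.2.1.1)
        (by rw [Pool.Agent.H487.EF.neg_I_mul_re]; exact hs.2.1.2)
  · refine (Pool.Agent.H487.EF.t_crit hε).trans ?_
    constructor
    · rintro ⟨c, T0, hc, h⟩
      exact ⟨c, T0, hc, fun T hT m h1 h2 s hs => h T hT m h1 h2 s hs.1 hs.2.1.1 hs.2.1.2⟩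
    · rintro ⟨c, T0, hc, h⟩
      exact ⟨c, T0, hc, fun T hT m h1 h2 s h3 h4 h5 => h T hT m h1 h2 s ⟨h3, ⟨h4, h5⟩, trivial⟩⟩

end Pool.Agent.Results.MP_5a4862_nt.EvenSpacing
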