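import Pool.Agent.H477.S.FinB

set_option autoImplicit false

/-!
The critical slope for the hyperbolicity of the Jensen polynomials of the Riemann xi function in
the range `n ≥ c log d + K`, and the strips that contain almost all zeros of the zeta function.
-/

open Complex Filter Topology Polynomial

namespace Pool.Agent.Results.MP_5a4862_nt.JensenLogRange

/-- The Riemann xi function `ξ(s) = s (s - 1) Λ(s) / 2`, where `Λ(s) = π^(-s/2) Γ(s/2) ζ(s)`. -/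
noncomputable def xi (s : ℂ) : ℂ := 1 / 2 * s * (s - 1) * completedRiemannZeta s

/-- The coefficients `γ(n) = 8 n! ξ^(2n)(1/2) / (2n)!`, so that
`(-1 + 4 z²) Λ(1/2 + z) = 8 ξ(1/2 + z) = ∑ γ(n) z^(2n) / n!`. -/
noncomputable def gamma (n : ℕ) : ℂ :=
  8 * (n.factorial : ℂ) / ((2 * n).factorial : ℂ) * iteratedDeriv (2 * n) xi (1 / 2)

/-- The Jensen polynomial `J^{d,n}(X) = ∑_{j ≤ d} (d choose j) γ(n + j) X^j`. -/
noncomputable def jensen (d n : ℕ) : ℂ[X] :=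
  ∑ j ∈ Finset.range (d + 1), C ((d.choose j : ℂ) * gamma (n + j)) * X ^ j

/-- The slope `c` is admissible: for some `K` and all `d ≥ 1` and `n ≥ c log d + K` the Jensen
polynomial `J^{d,n}` has degree `d` and all its complex roots are real. -/
def Admissible (c : ℝ) : Prop := ∃ K : ℝ, ∀ d n : ℕ, 1 ≤ d → c * Real.log d + K ≤ n →
  (jensen d n).natDegree = d ∧ ∀ z : ℂ, (jensen d n).IsRoot z → z.im = 0

/-- For every `δ > 0` all but finitely many zeros `s` of the zeta function with `0 < Re s < 1`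
satisfy `|Re s - 1/2| ≤ h + δ`. -/
def Strip (h : ℝ) : Prop := ∀ δ : ℝ, 0 < δ →
  {s : ℂ | riemannZeta s = 0 ∧ 0 < s.re ∧ s.re < 1 ∧ h + δ < |s.re - 1 / 2|}.Finite

/-- `ζ(σ + it) = O(t^(A + ε))` for `t ≥ 1` and every `ε > 0`. -/
def Order (σ A : ℝ) : Prop := ∀ ε : ℝ, 0 < ε → ∃ B : ℝ, ∀ t : ℝ, 1 ≤ t →
  ‖riemannZeta (σ + I * t)‖ ≤ B * t ^ (A + ε)

theorem xi_eventually : xi =ᶠ[𝓝 (1 / 2 : ℂ)] Pool.Agent.H477.Jen.xi := by
  have h0 : ∀ᶠ s : ℂ in 𝓝 (1 / 2 : ℂ), s ≠ 0 := isOpen_ne.mem_nhds (by norm_num)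
  have h1 : ∀ᶠ s : ℂ in 𝓝 (1 / 2 : ℂ), s ≠ 1 := isOpen_ne.mem_nhds (by norm_num)
  filter_upwards [h0, h1] with s hs0 hs1
  have h2 : 1 - s ≠ 0 := sub_ne_zero.2 (Ne.symm hs1)
  rw [xi, completedRiemannZeta_eq, Pool.Agent.H477.Jen.xi]
  field_simp
  ring

theorem gamma_eq (n : ℕ) :
    gamma n = ((8 * Pool.Agent.H477.Jen.gam Pool.Agent.Helper242.KK.Ph n : ℝ) : ℂ) := by
  rw [gamma, xi_eventually.iteratedDeriv_eq, Pool.Agent.H477.Jen.iteratedDeriv_xi,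
    Pool.Agent.H477.Jen.gam]
  push_cast
  ring

theorem gamma_ne (n : ℕ) : gamma n ≠ 0 := by
  rw [gamma_eq]
  have := Pool.Agent.H477.Jen.ker_Ph.gam_pos n
  exact_mod_cast (by positivity :
    (8 * Pool.Agent.H477.Jen.gam Pool.Agent.Helper242.KK.Ph n : ℝ) ≠ 0)

theorem jensen_natDegree (d n : ℕ) : (jensen d n).natDegree = d := by
  have hc : (jensen d n).coeff d ≠ 0 := by
    rw [jensen, finsetSum_coeff]
    simp only [coeff_C_mul_X_pow]
    rw [Finset.sum_eq_single d]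
    · simp [gamma_ne]
    · intro b _ hb
      simp [hb.symm]
    · simp
  refine natDegree_eq_of_le_of_coeff_ne_zero ?_ hc
  refine natDegree_sum_le_of_forall_le _ _ fun j hj => ?_
  exact (natDegree_C_mul_X_pow_le _ _).trans (Nat.lt_succ_iff.1 (Finset.mem_range.1 hj))

theorem isRoot_iff {F : ℂ → ℂ} (hF : Pool.Agent.H477.Jen.IsF Pool.Agent.Helper242.KK.Ph F)
    (d n : ℕ) (z : ℂ) : (jensen d n).IsRoot z ↔
      ∑ j ∈ Finset.range (d + 1), (d.choose j : ℂ) * iteratedDeriv (n + j) F 0 * z ^ j = 0 := by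
  rw [IsRoot.def, jensen, eval_finsetSum]
  have h1 : ∑ j ∈ Finset.range (d + 1), eval z (C ((d.choose j : ℂ) * gamma (n + j)) * X ^ j) =
      8 * ∑ j ∈ Finset.range (d + 1), (d.choose j : ℂ) * iteratedDeriv (n + j) F 0 * z ^ j := by
    rw [Finset.mul_sum]
    refine Finset.sum_congr rfl fun j _ => ?_
    rw [gamma_eq, hF.deriv_zero]
    simp only [eval_mul, eval_C, eval_pow, eval_X]
    push_cast
    ring
  rw [h1, mul_eq_zero]
  constructor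
  · exact fun h => h.resolve_left (by norm_num)
  · exact Or.inr

theorem admissible_iff {F : ℂ → ℂ}
    (hF : Pool.Agent.H477.Jen.IsF Pool.Agent.Helper242.KK.Ph F) (c : ℝ) :
    Admissible c ↔ Pool.Agent.H477.S.AdmF F c := by
  constructor
  · rintro ⟨K, hK⟩
    exact ⟨K, fun d n hd hn z hz => (hK d n hd hn).2 z ((isRoot_iff hF d n z).2 hz)⟩
  · rintro ⟨K, hK⟩
    exact ⟨K, fun d n hd hn => ⟨jensen_natDegree d n, fun z hz =>
      hK d n hd hn z ((isRoot_iff hF d n z).1 hz)⟩⟩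

theorem order_iff : Order (1 / 2) 0 ↔ Pool.Agent.H477.S.LIN := by
  have e : ∀ t : ℝ, ((((1 / 2 : ℝ) : ℂ)) + I * t) = 1 / 2 + I * t := by
    intro t
    push_cast
    ring
  constructor
  · intro h ε hε
    obtain ⟨B, hB⟩ := h ε hε
    refine ⟨B, fun t ht => ?_⟩
    have := hB t ht
    rwa [e, zero_add] at this
  · intro h ε hε
    obtain ⟨B, hB⟩ := h ε hε
    refine ⟨B, fun t ht => ?_⟩
    have := hB t ht
    rwa [e, zero_add]

/-- Let `h` be the least `x ≥ 0` with `Strip x`, and let `κ` be the infimum of the admissible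
slopes `c ≥ 0`. Then `κ ≤ h/4 ≤ 1/8`, `κ ≥ (h - 1/3)/4`, and `κ ≥ (h/4)(1 - 2A/(h-x))` if
`ζ(1/2 + x + it) = O(t^(A+ε))`, `0 ≤ x < h`. Moreover `κ < 1/8` if and only if the zeta function
has no zeros in a half-plane `Re s > 1 - η`, and `h = 0` if and only if the Lindelof hypothesis
holds and `κ = 0`. -/
theorem result : ∃ h κ : ℝ,
    (0 ≤ h ∧ Strip h ∧ ∀ x : ℝ, 0 ≤ x → x < h → ¬ Strip x) ∧
    (0 ≤ κ ∧ (∀ c : ℝ, κ < c → Admissible c) ∧ ∀ c : ℝ, 0 ≤ c → c < κ → ¬ Admissible c) ∧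
    κ ≤ h / 4 ∧ h / 4 ≤ 1 / 8 ∧ (h - 1 / 3) / 4 ≤ κ ∧
    (∀ x A : ℝ, 0 ≤ x → x < h → 0 ≤ A → Order (1 / 2 + x) A →
      h / 4 * (1 - 2 * A / (h - x)) ≤ κ) ∧
    (κ < 1 / 8 ↔ ∃ η : ℝ, 0 < η ∧ ∀ s : ℂ, 1 - η < s.re → riemannZeta s ≠ 0) ∧
    (h = 0 ↔ Order (1 / 2) 0 ∧ κ = 0) := by
  obtain ⟨F, hF⟩ := Pool.Agent.H477.Jen.ker_Ph.exists_F
  obtain ⟨h, κ, ⟨a1, a2, a3, a4⟩, ⟨b1, b2, b3⟩, b4, b5, b6, b7, b8, b9⟩ :=
    Pool.Agent.H477.S.main hF
  refine ⟨h, κ, ⟨a1, a3, a4⟩, ⟨b1, fun c hc => (admissible_iff hF c).2 (b2 c hc),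
    fun c hc0 hc hA => b3 c hc0 hc ((admissible_iff hF c).1 hA)⟩, b4, by linarith, b6, ?_, b7, ?_⟩
  · intro x A hx0 hx hA hO
    refine b5 x A hx0 hx hA fun ε hε => ?_
    obtain ⟨B, hB⟩ := hO ε hε
    refine ⟨B, fun t ht => ?_⟩
    have := hB t ht
    push_cast at this
    exact this
  · rw [order_iff]
    constructor
    · intro h0
      rw [h0] at a3 b4
      have h1 := (b9.1 a3).1
      exact ⟨h1, by linarith⟩
    · rintro ⟨hL, hκ⟩
      have := b8 hL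
      linarith

end Pool.Agent.Results.MP_5a4862_nt.JensenLogRange
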