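import Pool.Agent.H826.Dens2
import Pool.Agent.H826.Unif
import Pool.Agent.H826.Quasi
import Pool.Agent.H826.PropE
import Pool.Agent.H826.JenM
import Pool.Agent.H826.LgC
import Pool.Agent.H826.LgH
import Pool.Agent.H826.LgJ
import Pool.Agent.H826.LgN
import Pool.Agent.H826.LgQ

set_option autoImplicit false

/-!
# The generalised Laguerre inequalities of the Riemann Xi function at height `t` and zero-free half-planes

For real `t` the function `|ξ(1/2 + y + it)|²` is an even entire function of the real variable `y`, so it is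
`F_t(y²)` with a real entire function `F_t`, whose Taylor coefficients at `0` are the generalised Laguerre
expressions `L_n(t)` of `Ξ(t) = ξ(1/2 + it)` (Jensen, Patrick, Csordas-Varga).  For `0 ≤ h ≤ 1/2` there are no
zeros with real part `> 1/2 + h` if and only if `0 ≤ F_t^(n)(h²)` for all `n` and `t`.  The order `n` fails at
`(t, h)` if `F_t^(n)(h²) < 0`.  The theorem says which orders fail at which heights.

1. The following are equivalent, for `0 ≤ h < 1/2` and every `d`: there is a `σ₀ < 1` without zeros in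
   `Re s ≥ σ₀` (Q1); for some `κ < 1/4 - h²` no order `n ≥ κ log |t|` fails at a large height `t`; for some
   `κ < 1/4 - h²` and `δ > 0` the heights `t` in `[T, 2 T]` at which an order `≥ κ log T` fails have measure at most
   `T ^ (-δ)` for large `T`; for some `κ < 1/4` and `C` the Jensen polynomials `J_t^{d,n}` of `F_t` have `d` distinct
   negative zeros for all `t` and all `n ≥ κ log (|t| + 2) + C`.
2. The local law.  If there are no zeros to the right of `1/2 + b` near the height `t`, then only orders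
   `n < (K(b) + ε) log |t|` can fail at `t`, `K(b) = (b² - h²) / (2 b)`; in particular (`b = 1/2`) without any
   hypothesis only orders `n < (1/4 - h² + ε) log |t|` can fail.  If there is a zero `ρ` very close to the line
   `Re s = 1` then an order `n ≥ (1/4 - h² - ε) log t` fails at all heights `t` with `|t - Im ρ| ≤ (Im ρ) ^ (-ε)`.  The
   same holds with `K(b)` for a zero close to the line `Re s = 1/2 + b` with no zeros to the right of this line near
   its height if zeta is small near this height (Lindelöf), and up to the factor `1 - 1 / (3 b)` in general.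
3. The number of the zeros very close to the line `Re s = 1` is at most the measure of the heights with a failure of
   an order `≥ κ log T`, `κ < 1/4 - h²`, up to `T ^ ε`.
4. The critical line.  At a proportion of more than 82.8% of the heights `t` no order fails at `h = 0`.  The failures
   at `h = 0` have density zero if and only if for each `δ > 0` almost all zeros `β + iγ` satisfy
   `|β - 1/2| < δ / log γ`.
-/

namespace Pool.Agent.Results.MP_5a4862_nt.LaguerreThreshold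

open Complex Filter Topology MeasureTheory Set

/-- Riemann's entire function `ξ(s) = s (s - 1) Λ(s) / 2`, written with Mathlib's entire function
`Λ₀(s) = Λ(s) + 1 / s + 1 / (1 - s)` -/
noncomputable def xi (s : ℂ) : ℂ := (s * (s - 1) * completedRiemannZeta₀ s + 1) / 2

/-- `Ξ(t) = ξ(1/2 + i t)`, which is real for real `t` -/
noncomputable def Xi (t : ℝ) : ℝ := (xi (1 / 2 + t * I)).re

/-- the generalised Laguerre expression of order `n` of `Ξ` at `t` -/
noncomputable def lag (n : ℕ) (t : ℝ) : ℝ := ∑ j ∈ Finset.range (2 * n + 1),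
  (-1) ^ (n + j) * ((2 * n).choose j : ℝ) / ((2 * n).factorial : ℝ) *
    (iteratedDeriv j Xi t * iteratedDeriv (2 * n - j) Xi t)

/-- `F_t(Y) = ∑ L_n(t) Y ^ n`; for `Y = y²` this is `|ξ(1/2 + y + i t)|²` -/
noncomputable def F (t Y : ℝ) : ℝ := ∑' n : ℕ, lag n t * Y ^ n

/-- at all large heights all inequalities `0 ≤ F_t^(n)(h²)` of order `n ≥ κ log |t|` hold -/
def Holds (h κ : ℝ) : Prop :=
  ∃ X : ℝ, ∀ t : ℝ, X ≤ |t| → ∀ n : ℕ, κ * Real.log |t| ≤ n → 0 ≤ iteratedDeriv n (F t) (h ^ 2)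

/-- the heights in `[T, 2 T]` at which the inequality `0 ≤ F_t^(n)(h²)` fails for some order `n ≥ x` -/
def Fail (h T x : ℝ) : Set ℝ :=
  {t : ℝ | T ≤ t ∧ t ≤ 2 * T ∧ ∃ n : ℕ, x ≤ n ∧ iteratedDeriv n (F t) (h ^ 2) < 0}

/-- the Jensen polynomial of degree `d` and shift `n` of `F_t` at `z` -/
noncomputable def J (d n : ℕ) (t : ℝ) (z : ℂ) : ℂ :=
  ∑ j ∈ Finset.range (d + 1), (d.choose j : ℂ) * ((n + j).factorial : ℂ) * (lag (n + j) t : ℂ) * z ^ j

/-- `L_n(t)` is positive and the Jensen polynomial of degree `d` and shift `n` has `d` distinct negative zeros -/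
def Neg (d n : ℕ) (t : ℝ) : Prop := 0 < lag n t ∧ ∃ s : Finset ℝ, s.card = d ∧ ∀ x ∈ s, x < 0 ∧ J d n t x = 0

/-- the number of the zeros `β + iγ` of zeta with `T ≤ γ ≤ 2 T` and `β ≥ 1/2 + x`, counted with multiplicity -/
noncomputable def Nz (x T : ℝ) : ℕ :=
  ∑ᶠ s ∈ {s : ℂ | riemannZeta s = 0 ∧ T ≤ s.im ∧ s.im ≤ 2 * T ∧ 1 / 2 + x ≤ s.re}, analyticOrderNatAt riemannZeta s

/-- for all `t` and all `n ≥ κ log (|t| + 2) + C`, `L_n(t)` is positive and the Jensen polynomial of degree `d` and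
shift `n` has `d` distinct negative zeros -/
def HoldsJ (d : ℕ) (κ : ℝ) : Prop := ∃ C : ℝ, ∀ (t : ℝ) (n : ℕ), κ * Real.log (|t| + 2) + C ≤ n → Neg d n t

theorem result :
    -- what the functions are
    ((∀ s : ℂ, s ≠ 0 → s ≠ 1 → xi s = s * (s - 1) * completedRiemannZeta s / 2) ∧
      (∀ t : ℝ, xi (1 / 2 + t * I) = (Xi t : ℂ)) ∧
      (∀ t y : ℝ, HasSum (fun n : ℕ => lag n t * y ^ (2 * n)) (‖xi (1 / 2 + y + t * I)‖ ^ 2)) ∧
      (∀ t y : ℝ, F t (y ^ 2) = ‖xi (1 / 2 + y + t * I)‖ ^ 2)) ∧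
    -- the inequalities without exception
    (∀ h : ℝ, 0 ≤ h → h ≤ 1 / 2 →
      ((∀ s : ℂ, 1 / 2 + h < s.re → riemannZeta s ≠ 0) ↔
        ∀ (t : ℝ) (n : ℕ), 0 ≤ iteratedDeriv n (F t) (h ^ 2))) ∧
    -- (1) Q1, in terms of the orders of the failures, of their measure and of the Jensen polynomials
    (∀ (h : ℝ) (d : ℕ), 0 ≤ h → h < 1 / 2 →
      [∃ σ₀ : ℝ, 1 / 2 < σ₀ ∧ σ₀ < 1 ∧ ∀ s : ℂ, σ₀ ≤ s.re → riemannZeta s ≠ 0,
        ∃ κ : ℝ, κ < 1 / 4 - h ^ 2 ∧ Holds h κ,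
        ∃ κ δ : ℝ, κ < 1 / 4 - h ^ 2 ∧ 0 < δ ∧
          ∀ᶠ T : ℝ in atTop, volume (Fail h T (κ * Real.log T)) ≤ ENNReal.ofReal (T ^ (-δ)),
        ∃ κ : ℝ, κ < 1 / 4 ∧ HoldsJ d κ].TFAE) ∧
    -- (2) no zeros to the right of `1/2 + b` near the height `t`: only orders `n ≤ (K(b) + ε) log |t|` can fail
    (∀ ε : ℝ, 0 < ε → ∃ W X : ℝ, 0 < W ∧ 1 < X ∧ ∀ h b : ℝ, 0 ≤ h → h ≤ b → b ≤ 1 / 2 →
      ∀ t : ℝ, X ≤ |t| → (∀ s : ℂ, 1 / 2 + b < s.re → |s.im - t| < W → riemannZeta s ≠ 0) →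
      ∀ n : ℕ, ((b ^ 2 - h ^ 2) / (2 * b) + ε) * Real.log |t| ≤ n → 0 ≤ iteratedDeriv n (F t) (h ^ 2)) ∧
    -- a zero close to the line `Re s = 1` makes an order `≥ κ log t`, `κ < 1/4 - h²`, fail at the heights `t` close to
    -- its own height
    (∀ h κ ε : ℝ, 0 ≤ h → h < 1 / 2 → κ < 1 / 4 - h ^ 2 → 0 < ε → ∃ η X : ℝ, 0 < η ∧ 1 < X ∧
      ∀ ρ : ℂ, riemannZeta ρ = 0 → 1 - η < ρ.re → X ≤ ρ.im → ∀ t : ℝ, |t - ρ.im| ≤ ρ.im ^ (-ε) →
        ∃ n : ℕ, κ * Real.log t ≤ n ∧ iteratedDeriv n (F t) (h ^ 2) < 0) ∧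
    -- the same for a zero close to the line `Re s = 1/2 + b`, with no zeros to the right of this line near its height
    (∀ h b A κ ε : ℝ, 0 ≤ h → h < b → b ≤ 1 / 2 → 0 ≤ A → 0 ≤ κ →
      κ < (1 - 2 * A / b) * ((b ^ 2 - h ^ 2) / (2 * b)) → 0 < ε → ∃ τ W X : ℝ, 0 < τ ∧ 0 < W ∧ 1 < X ∧
      ∀ ρ : ℂ, riemannZeta ρ = 0 → X ≤ ρ.im → 1 / 2 + b - τ < ρ.re →
        (∀ s : ℂ, 1 / 2 + b + τ < s.re → |s.im - ρ.im| < W → riemannZeta s ≠ 0) →
        (∀ u : ℝ, |u - ρ.im| ≤ W → ‖riemannZeta (1 / 2 + u * I)‖ ≤ u ^ (A + τ)) →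
        ∀ t : ℝ, |t - ρ.im| ≤ ρ.im ^ (-ε) →
          ∃ n : ℕ, κ * Real.log t ≤ n ∧ iteratedDeriv n (F t) (h ^ 2) < 0) ∧
    -- the bound for zeta holds with `A = 1/6`
    (∀ τ : ℝ, 0 < τ → ∀ᶠ u : ℝ in atTop, ‖riemannZeta (1 / 2 + u * I)‖ ≤ u ^ (1 / 6 + τ)) ∧
    -- (3) the number of the zeros close to the line `Re s = 1` and the measure of the failures of an order `≥ κ log T`
    (∀ h κ ε : ℝ, 0 ≤ h → h < 1 / 2 → κ < 1 / 4 - h ^ 2 → 0 < ε → ∃ η : ℝ, 0 < η ∧ ∀ᶠ T : ℝ in atTop,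
      (Nz (1 / 2 - η) T : ℝ) ≤ T ^ ε * (1 + (volume (Fail h T (κ * Real.log T))).toReal)) ∧
    -- (4) the critical line: nothing fails at 82.8% of the heights
    (∀ᶠ T : ℝ in atTop, volume (Fail 0 T 0) < ENNReal.ofReal (1711 / 10000 * T)) ∧
    -- the failures have density zero iff almost all zeros are much closer than `1 / log T` to the line
    ((∀ ε : ℝ, 0 < ε → ∀ᶠ T : ℝ in atTop, volume (Fail 0 T 0) ≤ ENNReal.ofReal (ε * T)) ↔
      ∀ δ ε : ℝ, 0 < δ → 0 < ε → ∀ᶠ T : ℝ in atTop, (Nz (δ / Real.log T) T : ℝ) ≤ ε * (T * Real.log T)) := by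
  have hFl : ∀ T : ℝ, Fail 0 T 0 = Pool.Agent.H826.Fl T := by
    intro T
    ext t
    constructor
    · rintro ⟨h1, h2, n, _, h3⟩
      refine ⟨h1, h2, n, ?_⟩
      have h4 : iteratedDeriv n (Pool.Agent.H826.Ft t) (0 ^ 2) < 0 := h3
      rw [show ((0:ℝ) ^ 2) = 0 by norm_num, Pool.Agent.H826.iter_zero] at h4
      by_contra hcon
      exact absurd h4 (not_lt.2 (mul_nonneg (by positivity) (not_lt.1 hcon)))
    · rintro ⟨h1, h2, n, h3⟩
      refine ⟨h1, h2, n, Nat.cast_nonneg n, ?_⟩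
      show iteratedDeriv n (Pool.Agent.H826.Ft t) (0 ^ 2) < 0
      rw [show ((0:ℝ) ^ 2) = 0 by norm_num, Pool.Agent.H826.iter_zero]
      exact mul_neg_of_pos_of_neg (by positivity) h3
  have hOff : ∀ δ T : ℝ, 0 < δ → 4 ≤ T → (Nz (δ / Real.log T) T : ℝ) = Pool.Agent.H826.far δ T :=
    fun δ T hδ hT => (Pool.Agent.H826.far_eq hδ hT).symm
  have hNz : ∀ x T : ℝ, 0 < T → (Nz x T : ℝ) = Pool.Agent.H826.nz x T :=
    fun x T hT => (Pool.Agent.H826.nz_eq hT).symm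
  have hneg : ∀ (d n : ℕ) (t : ℝ), Pool.Agent.H826.JenZ d n t → Neg d n t := by
    rintro d n t ⟨h1, s, h2, h3⟩
    refine ⟨h1, s, h2, fun x hx => ⟨(h3 x hx).1, ?_⟩⟩
    have h4 := congrArg (fun x : ℝ => (x : ℂ)) (h3 x hx).2
    simp only [Complex.ofReal_zero] at h4
    rw [← h4]
    unfold J
    push_cast
    rfl
  have hneg' : ∀ (d n : ℕ) (t : ℝ), Neg d n t → Pool.Agent.H826.JenZ d n t := by
    rintro d n t ⟨h1, s, h2, h3⟩
    refine ⟨h1, s, h2, fun x hx => ⟨(h3 x hx).1, ?_⟩⟩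
    have h4 := (h3 x hx).2
    unfold J at h4
    have h5 : ((∑ j ∈ Finset.range (d + 1), (d.choose j : ℝ) * ((n + j).factorial : ℝ) * lag (n + j) t * x ^ j : ℝ) : ℂ) =
        ((0 : ℝ) : ℂ) := by
      rw [Complex.ofReal_zero, ← h4]
      push_cast
      rfl
    exact Complex.ofReal_injective h5
  have hQ : (∃ σ₀ : ℝ, 1 / 2 < σ₀ ∧ σ₀ < 1 ∧ ∀ s : ℂ, σ₀ ≤ s.re → riemannZeta s ≠ 0) ↔
      ∃ η : ℝ, 0 < η ∧ ∀ s : ℂ, 1 - η < s.re → riemannZeta s ≠ 0 := by
    constructor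
    · rintro ⟨σ₀, _, h2, h3⟩
      exact ⟨1 - σ₀, by linarith, fun s hs => h3 s (by linarith)⟩
    · rintro ⟨η, h1, h2⟩
      refine ⟨max (3 / 4) (1 - η / 2), lt_of_lt_of_le (by norm_num) (le_max_left _ _),
        max_lt (by norm_num) (by linarith), fun s hs => h2 s ?_⟩
      have := (le_max_right (3 / 4) (1 - η / 2)).trans hs
      linarith
  refine ⟨⟨fun s h0 h1 => Pool.Agent.H826.xi_eq s h0 h1, fun t => ?_,
      fun t y => Pool.Agent.H826.hasSum_lag t y, fun t y => Pool.Agent.H826.Ft_sq t y⟩,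
    fun h hh0 hh1 => Pool.Agent.H826.half_iff hh0 hh1, ?_, ?_,
    fun h κ ε h1 h2 h3 h4 => Pool.Agent.H826.barrier_nb h1 h2 h3 h4, ?_, ?_, ?_, ?_, ?_⟩
  · apply Complex.ext
    · rw [Complex.ofReal_re]
      rfl
    · rw [Complex.ofReal_im]
      exact Pool.Agent.H826.xi_line t
  · intro h d hh0 hh1
    tfae_have 1 ↔ 2 := by
      rw [hQ, Pool.Agent.H826.quasi_iff hh0 hh1]
      exact ⟨fun ⟨κ, X, h1, h2⟩ => ⟨κ, h1, X, h2⟩, fun ⟨κ, h1, X, h2⟩ => ⟨κ, X, h1, h2⟩⟩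
    tfae_have 1 ↔ 3 := by
      rw [hQ]
      exact Pool.Agent.H826.quasi_meas hh0 hh1
    tfae_have 1 ↔ 4 := by
      rw [hQ, ← Pool.Agent.H826.Hs_lt_iff]
      constructor
      · intro h1
        obtain ⟨κ, h2, h3⟩ := exists_between (show Pool.Agent.H826.Hs / 2 < 1 / 4 by linarith)
        obtain ⟨C, hC⟩ := Pool.Agent.H826.jen_Hs d h2
        exact ⟨κ, h3, C, fun t n hn => hneg d n t (hC t n hn)⟩
      · rintro ⟨κ, h1, C, hC⟩
        by_contra h2
        exact Pool.Agent.H826.not_jen_half (le_antisymm Pool.Agent.H826.Hs_le (not_lt.1 h2)) d h1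
          ⟨C, fun t n hn => hneg' d n t (hC t n hn)⟩
    tfae_finish
  · intro ε hε
    obtain ⟨W, X, hW, hX, h1⟩ := Pool.Agent.H826.thr_general hε
    exact ⟨W, X, hW, by linarith, h1⟩
  · intro h b A κ ε h1 h2 h3 h4 h5 h6 h7
    obtain ⟨τ, W, X, hτ, hW, hX, h8⟩ := Pool.Agent.H826.edge_nb (x := 0) h1 h2 h3 le_rfl (h1.trans_lt h2) h4 h5
      (by rw [sub_zero]; exact h6) h7
    refine ⟨τ, W, X, hτ, hW, hX, fun ρ h9 h10 h11 h12 h13 => h8 ρ h9 h10 h11 h12 fun u hu => ?_⟩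
    rw [Complex.ofReal_zero, add_zero]
    exact h13 u hu
  · intro τ hτ
    have h1 := Pool.Agent.H826.weyl_ev τ hτ
    rw [Complex.ofReal_zero, add_zero] at h1
    exact h1
  · intro h κ ε hh0 hh1 hκ hε
    obtain ⟨η, T0, hη, _, h1⟩ := Pool.Agent.H826.near_count hh0 hh1 hκ hε
    refine ⟨η, hη, ?_⟩
    filter_upwards [eventually_ge_atTop T0, eventually_gt_atTop (0:ℝ)] with T hT hT0
    rw [hNz _ T hT0]
    exact h1 T hT
  · have h1 : (41:ℝ) / 14 < Real.exp (10746 / 10000) := by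
      have h2 := Real.exp_one_gt_d9
      have h3 := Real.quadratic_le_exp_of_nonneg (show (0:ℝ) ≤ 746 / 10000 by norm_num)
      have h4 : Real.exp (10746 / 10000) = Real.exp 1 * Real.exp (746 / 10000) := by
        rw [← Real.exp_add]
        norm_num
      rw [h4]
      have h5 : (41:ℝ) / 14 < 2.7182818283 * (1 + 746 / 10000 + (746 / 10000) ^ 2 / 2) := by norm_num
      refine h5.trans_le (mul_le_mul h2.le h3 (by norm_num) (Real.exp_pos 1).le)
    have h6 : Real.log (41 / 14) < 10746 / 10000 := (Real.log_lt_iff_lt_exp (by norm_num)).2 h1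
    have h7 := Real.pi_gt_d6
    have h8 : Real.log (41 / 14) / (2 * Real.pi) < 1711 / 10000 := by
      rw [div_lt_iff₀ (by positivity)]
      linarith
    obtain ⟨c, hc1, hc2⟩ := exists_between h8
    filter_upwards [Pool.Agent.H826.prop_fail (sub_pos.2 hc1), eventually_gt_atTop (0:ℝ)] with T hT hT0
    refine lt_of_le_of_lt (le_trans (measure_mono ?_) hT) ?_
    · rintro t ⟨h2, h3, n, _, h4⟩
      rw [show ((0:ℝ) ^ 2) = 0 by norm_num] at h4
      exact ⟨h2, h3, n, h4⟩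
    · rw [add_sub_cancel, ENNReal.ofReal_lt_ofReal_iff (by positivity)]
      exact mul_lt_mul_of_pos_right hc2 hT0
  · have h3 := (Pool.Agent.H826.dens_iff (d := 2) le_rfl).out 1 0 rfl rfl
    have h4 : (∀ δ ε : ℝ, 0 < δ → 0 < ε → ∀ᶠ T : ℝ in atTop, (Nz (δ / Real.log T) T : ℝ) ≤ ε * (T * Real.log T)) ↔
        ∀ δ ε : ℝ, 0 < δ → 0 < ε → ∀ᶠ T : ℝ in atTop, Pool.Agent.H826.far δ T ≤ ε * (T * Real.log T) := by
      refine forall_congr' fun δ => forall_congr' fun ε => imp_congr_right fun hδ => imp_congr_right fun _ => ?_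
      refine eventually_congr ?_
      filter_upwards [eventually_ge_atTop (4:ℝ)] with T hT
      rw [hOff δ T hδ hT]
    rw [h4]
    simp only [hFl]
    exact h3

end Pool.Agent.Results.MP_5a4862_nt.LaguerreThreshold
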